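import Mathlib

/-!
# A surjective polynomial map with characteristic-polynomial-type properties

The map `f (x, y, z) = (x - y, x z, z ^ 3 - y ^ 2 z)` of `ℝ³` is surjective, has an infinite fibre
over the origin, and satisfies the degree, indeterminate and coefficient conditions (a)-(e).
-/

set_option autoImplicit false

namespace Pool.Agent.Results.MP_07d99b_al.SurjectiveMap

open MvPolynomial

/-- The conditions (a)-(e) on a polynomial map `f = (p 0, …, p (n-1))` of `ℝⁿ`. -/
structure Admissible {n : ℕ} (p : Fin n → MvPolynomial (Fin n) ℝ) : Prop where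
  /-- (a) `p i` vanishes at the origin -/
  zero : ∀ i, eval (fun _ => (0 : ℝ)) (p i) = 0
  /-- (b) the `i`-th polynomial (counting from one) has total degree at most `i` -/
  degree : ∀ i, (p i).totalDegree ≤ (i : ℕ) + 1
  /-- (c) the fibre over the origin is infinite -/
  fibre : {x : Fin n → ℝ | ∀ i, eval x (p i) = 0}.Infinite
  /-- (d) any `k` of the polynomials, `1 ≤ k < n`, together involve at least `k + 1`
  indeterminates -/
  involve : ∀ S : Finset (Fin n), 1 ≤ S.card → S.card < n →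
    S.card + 1 ≤ (S.biUnion fun i => (p i).vars).card
  /-- (e) every coefficient is `0`, `1` or `-1` -/
  signed : ∀ i m, coeff m (p i) = 0 ∨ coeff m (p i) = 1 ∨ coeff m (p i) = -1

/-- The map. -/
noncomputable def f : Fin 3 → MvPolynomial (Fin 3) ℝ :=
  ![X 0 - X 1, X 0 * X 2, X 2 ^ 3 - X 1 ^ 2 * X 2]

theorem f0 : f 0 = monomial (Finsupp.single 0 1) (1 : ℝ) - monomial (Finsupp.single 1 1) 1 := rfl

theorem f1 : f 1 = monomial (Finsupp.single 0 1 + Finsupp.single 2 1) (1 : ℝ) := by
  change (X 0 * X 2 : MvPolynomial (Fin 3) ℝ) = _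
  simp [X, monomial_mul]

theorem f2 : f 2 = monomial (Finsupp.single 2 3) (1 : ℝ) -
    monomial (Finsupp.single 1 2 + Finsupp.single 2 1) 1 := by
  change (X 2 ^ 3 - X 1 ^ 2 * X 2 : MvPolynomial (Fin 3) ℝ) = _
  simp [X, monomial_mul, monomial_pow]

theorem ne0 : (Finsupp.single (0 : Fin 3) 1 : Fin 3 →₀ ℕ) ≠ Finsupp.single 1 1 := by
  intro h
  have := DFunLike.congr_fun h 0
  simp at this

theorem ne2 : (Finsupp.single (2 : Fin 3) 3 : Fin 3 →₀ ℕ) ≠
    Finsupp.single 1 2 + Finsupp.single 2 1 := by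
  intro h
  have := DFunLike.congr_fun h 1
  simp at this

theorem coeff_two {a b : Fin 3 →₀ ℕ} (h : a ≠ b) (m : Fin 3 →₀ ℕ) :
    coeff m (monomial a (1 : ℝ) - monomial b 1) = 0 ∨
    coeff m (monomial a (1 : ℝ) - monomial b 1) = 1 ∨
    coeff m (monomial a (1 : ℝ) - monomial b 1) = -1 := by
  rw [coeff_sub, coeff_monomial, coeff_monomial]
  split_ifs with h1 h2 h2
  · exact absurd (h1.trans h2.symm) h
  · right; left; norm_num
  · right; right; norm_num
  · left; norm_num

theorem mem_vars0 : (0 : Fin 3) ∈ (f 0).vars ∧ (1 : Fin 3) ∈ (f 0).vars := by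
  rw [f0]
  constructor
  · rw [mem_vars_iff_mem_support]
    refine ⟨Finsupp.single 0 1, ?_, by simp⟩
    rw [mem_support_iff, coeff_sub, coeff_monomial, coeff_monomial, if_pos rfl, if_neg ne0.symm]
    norm_num
  · rw [mem_vars_iff_mem_support]
    refine ⟨Finsupp.single 1 1, ?_, by simp⟩
    rw [mem_support_iff, coeff_sub, coeff_monomial, coeff_monomial, if_neg ne0, if_pos rfl]
    norm_num

theorem mem_vars1 : (0 : Fin 3) ∈ (f 1).vars ∧ (2 : Fin 3) ∈ (f 1).vars := by
  rw [f1]
  constructor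
  · rw [mem_vars_iff_mem_support]
    refine ⟨Finsupp.single 0 1 + Finsupp.single 2 1, ?_, by simp⟩
    rw [mem_support_iff, coeff_monomial, if_pos rfl]
    norm_num
  · rw [mem_vars_iff_mem_support]
    refine ⟨Finsupp.single 0 1 + Finsupp.single 2 1, ?_, by simp⟩
    rw [mem_support_iff, coeff_monomial, if_pos rfl]
    norm_num

theorem mem_vars2 : (1 : Fin 3) ∈ (f 2).vars ∧ (2 : Fin 3) ∈ (f 2).vars := by
  rw [f2]
  constructor
  · rw [mem_vars_iff_mem_support]
    refine ⟨Finsupp.single 1 2 + Finsupp.single 2 1, ?_, by simp⟩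
    rw [mem_support_iff, coeff_sub, coeff_monomial, coeff_monomial, if_neg ne2, if_pos rfl]
    norm_num
  · rw [mem_vars_iff_mem_support]
    refine ⟨Finsupp.single 2 3, ?_, by simp⟩
    rw [mem_support_iff, coeff_sub, coeff_monomial, coeff_monomial, if_pos rfl, if_neg ne2.symm]
    norm_num

/-- The indeterminates of the three polynomials. -/
def V : Fin 3 → Finset (Fin 3) := ![{0, 1}, {0, 2}, {1, 2}]

theorem card_dec : ∀ S : Finset (Fin 3), 1 ≤ S.card → S.card < 3 →
    S.card + 1 ≤ (S.biUnion V).card := by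
  decide

theorem admissible : Admissible f where
  zero := by
    intro i
    fin_cases i <;> simp [f]
  degree := by
    intro i
    fin_cases i
    · change (X 0 - X 1 : MvPolynomial (Fin 3) ℝ).totalDegree ≤ 0 + 1
      refine (totalDegree_sub _ _).trans ?_
      simp
    · change (X 0 * X 2 : MvPolynomial (Fin 3) ℝ).totalDegree ≤ 1 + 1
      refine (totalDegree_mul _ _).trans ?_
      simp
    · change (X 2 ^ 3 - X 1 ^ 2 * X 2 : MvPolynomial (Fin 3) ℝ).totalDegree ≤ 2 + 1
      refine (totalDegree_sub _ _).trans (max_le ?_ ?_)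
      · refine (totalDegree_pow _ _).trans ?_
        simp
      · refine (totalDegree_mul _ _).trans ?_
        have := totalDegree_pow (X 1 : MvPolynomial (Fin 3) ℝ) 2
        simp at this ⊢
  fibre := by
    refine Set.Infinite.mono (s := Set.range fun t : ℝ => (![t, t, 0] : Fin 3 → ℝ)) ?_ ?_
    · rintro _ ⟨t, rfl⟩ i
      fin_cases i <;> simp [f]
    · refine Set.infinite_range_of_injective ?_
      intro s t hst
      simpa using congrFun hst 0
  involve := by
    intro S h1 h3
    refine (card_dec S h1 h3).trans (Finset.card_le_card (Finset.biUnion_mono fun i _ => ?_))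
    intro j hj
    fin_cases i
    · obtain rfl | rfl : j = 0 ∨ j = 1 := by simpa [V] using hj
      exacts [mem_vars0.1, mem_vars0.2]
    · obtain rfl | rfl : j = 0 ∨ j = 2 := by simpa [V] using hj
      exacts [mem_vars1.1, mem_vars1.2]
    · obtain rfl | rfl : j = 1 ∨ j = 2 := by simpa [V] using hj
      exacts [mem_vars2.1, mem_vars2.2]
  signed := by
    intro i m
    fin_cases i
    · change coeff m (f 0) = 0 ∨ coeff m (f 0) = 1 ∨ coeff m (f 0) = -1
      rw [f0]; exact coeff_two ne0 m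
    · change coeff m (f 1) = 0 ∨ coeff m (f 1) = 1 ∨ coeff m (f 1) = -1
      rw [f1, coeff_monomial]
      split_ifs
      · right; left; rfl
      · left; rfl
    · change coeff m (f 2) = 0 ∨ coeff m (f 2) = 1 ∨ coeff m (f 2) = -1
      rw [f2]; exact coeff_two ne2 m

theorem cubic (s w : ℝ) : ∃ z : ℝ, z ^ 3 - s ^ 2 * z = w := by
  have hc : Continuous fun z : ℝ => z ^ 3 - s ^ 2 * z := by fun_prop
  set R : ℝ := 1 + |s| + |w| with hR
  have hs := abs_nonneg s
  have hw := abs_nonneg w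
  have hw1 := le_abs_self w
  have hw2 := neg_abs_le w
  have hs2 : s ^ 2 = |s| ^ 2 := (sq_abs s).symm
  have hR1 : 1 ≤ R := by rw [hR]; linarith
  have key : |w| ≤ R ^ 3 - s ^ 2 * R := by
    have h1 : |w| ≤ R ^ 2 - s ^ 2 := by rw [hs2, hR]; nlinarith
    have h2 : 0 ≤ R ^ 2 - s ^ 2 := hw.trans h1
    nlinarith
  have := intermediate_value_Icc (a := -R) (b := R) (by linarith) hc.continuousOn
  obtain ⟨z, -, hz⟩ := this (show w ∈ Set.Icc _ _ from ⟨by nlinarith, by linarith⟩)
  exact ⟨z, hz⟩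

theorem quartic (s c w : ℝ) (hc0 : c ≠ 0) :
    ∃ z : ℝ, z ≠ 0 ∧ z ^ 4 - (c - s * z) ^ 2 - w * z = 0 := by
  have hc : Continuous fun z : ℝ => z ^ 4 - (c - s * z) ^ 2 - w * z := by fun_prop
  set R : ℝ := 1 + |s| + |c| + |w| with hR
  have hs := abs_nonneg s
  have hw := abs_nonneg w
  have hcc := abs_nonneg c
  have hR1 : 1 ≤ R := by rw [hR]; linarith
  have h1 : |c - s * R| ≤ (|c| + |s|) * R := by
    calc |c - s * R| ≤ |c| + |s * R| := abs_sub _ _
      _ = |c| + |s| * R := by rw [abs_mul, abs_of_pos (by linarith : (0 : ℝ) < R)]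
      _ ≤ (|c| + |s|) * R := by nlinarith
  have h2 : (c - s * R) ^ 2 ≤ ((|c| + |s|) * R) ^ 2 := by
    rw [← sq_abs (c - s * R)]
    exact pow_le_pow_left₀ (abs_nonneg _) h1 2
  have h3 : w * R ≤ |w| * R ^ 2 := by
    have e1 : w * R ≤ |w| * R := mul_le_mul_of_nonneg_right (le_abs_self w) (by linarith)
    have e2 : |w| * R ≤ |w| * R ^ 2 := mul_le_mul_of_nonneg_left (by nlinarith) hw
    linarith
  have h4 : (|c| + |s|) ^ 2 + |w| ≤ R ^ 2 := by rw [hR]; nlinarith [mul_nonneg hs hw, mul_nonneg hcc hw]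
  have key : 0 ≤ R ^ 4 - (c - s * R) ^ 2 - w * R := by
    have : ((|c| + |s|) * R) ^ 2 + |w| * R ^ 2 ≤ R ^ 4 := by
      have := mul_le_mul_of_nonneg_right h4 (sq_nonneg R)
      nlinarith
    linarith
  have := intermediate_value_Icc (a := (0 : ℝ)) (b := R) (by linarith) hc.continuousOn
  obtain ⟨z, -, hz⟩ := this (show (0 : ℝ) ∈ Set.Icc _ _ from
    ⟨by nlinarith [sq_nonneg c], by simpa using key⟩)
  refine ⟨z, ?_, hz⟩
  rintro rfl
  simp at hz
  exact hc0 hz

/-- **Q1 has a positive answer**: there are `n ≥ 1` and a surjective polynomial map of `ℝⁿ`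
satisfying (a)-(e). -/
theorem result : ∃ (n : ℕ) (_ : 1 ≤ n) (p : Fin n → MvPolynomial (Fin n) ℝ),
    Admissible p ∧ Function.Surjective fun (x : Fin n → ℝ) (i : Fin n) => eval x (p i) := by
  refine ⟨3, by norm_num, f, admissible, ?_⟩
  intro t
  by_cases hc : t 1 = 0
  · obtain ⟨z, hz⟩ := cubic (t 0) (t 2)
    refine ⟨![0, -t 0, z], ?_⟩
    funext i
    fin_cases i
    · simp [f]
    · simp [f, hc]
    · simp [f]; linarith
  · obtain ⟨z, hz0, hz⟩ := quartic (t 0) (t 1) (t 2) hc
    refine ⟨![t 1 / z, t 1 / z - t 0, z], ?_⟩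
    funext i
    fin_cases i
    · simp [f]
    · simp [f, hz0]
    · simp [f]
      field_simp
      linarith

end Pool.Agent.Results.MP_07d99b_al.SurjectiveMap
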